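import Pool.Agent.Q293.PS.Path

open Finset

namespace Q293.PS

variable {n : ℕ}

/-- number of orders with item `i` at position `k` -/
lemma cnt (k i : Fin n) : (∑ σ : Equiv.Perm (Fin n), if σ k = i then (1 : ℝ) else 0) =
    n.factorial / n := by
  have hn : 0 < n := Fin.pos k
  have hn0 : (n : ℝ) ≠ 0 := by exact_mod_cast hn.ne'
  have h1 : ∀ i' : Fin n, (∑ σ : Equiv.Perm (Fin n), if σ k = i' then (1 : ℝ) else 0) =
      ∑ σ : Equiv.Perm (Fin n), if σ k = i then (1 : ℝ) else 0 := by
    intro i'
    rw [← Equiv.sum_comp (Equiv.mulLeft (Equiv.swap i i'))]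
    refine sum_congr rfl fun σ _ => ?_
    have : ((Equiv.mulLeft (Equiv.swap i i')) σ) k = i' ↔ σ k = i := by
      simp only [Equiv.coe_mulLeft, Equiv.Perm.coe_mul, Function.comp_apply]
      constructor
      · intro h
        have := congrArg (Equiv.swap i i') h
        simpa using this
      · rintro h
        rw [h]; simp
    simp only [this]
  have h2 : ∑ i' : Fin n, (∑ σ : Equiv.Perm (Fin n), if σ k = i' then (1 : ℝ) else 0) =
      n.factorial := by
    rw [sum_comm]
    simp [Fintype.card_perm]
  rw [sum_congr rfl fun i' _ => h1 i', sum_const, card_univ, Fintype.card_fin, nsmul_eq_mul] at h2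
  field_simp
  linarith

/-- the sum over the orders with `i` at position `k` of a function of the item at another
position is the same for all other positions -/
lemma other (k i : Fin n) (b : Fin n → ℝ) (j : Fin n) (hj : j ≠ k) :
    ((n : ℝ) - 1) * (∑ σ : Equiv.Perm (Fin n), if σ k = i then b (σ j) else 0) =
    n.factorial / n * (∑ i', b i' - b i) := by
  have h1 : ∀ j' : Fin n, j' ≠ k →
      (∑ σ : Equiv.Perm (Fin n), if σ k = i then b (σ j') else 0) =
      ∑ σ : Equiv.Perm (Fin n), if σ k = i then b (σ j) else 0 := by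
    intro j' hj'
    rw [← Equiv.sum_comp (Equiv.mulRight (Equiv.swap j j'))]
    refine sum_congr rfl fun σ _ => ?_
    have e1 : ((Equiv.mulRight (Equiv.swap j j')) σ) k = σ k := by
      simp [Equiv.swap_apply_of_ne_of_ne hj.symm hj'.symm]
    have e2 : ((Equiv.mulRight (Equiv.swap j j')) σ) j' = σ j := by simp
    rw [e1, e2]
  have h2 : ∑ j' ∈ univ.erase k, (∑ σ : Equiv.Perm (Fin n), if σ k = i then b (σ j') else 0) =
      n.factorial / n * (∑ i', b i' - b i) := by
    rw [sum_comm, ← cnt k i, sum_mul]
    refine sum_congr rfl fun σ _ => ?_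
    by_cases h : σ k = i
    · simp only [h, if_true, one_mul]
      rw [← Equiv.sum_comp σ b, ← sum_erase_add _ _ (mem_univ k), h]
      ring
    · simp [h]
  rw [← h2, sum_congr rfl fun j' hj' => h1 j' (ne_of_mem_erase hj'), sum_const,
    card_erase_of_mem (mem_univ k), card_univ, Fintype.card_fin, nsmul_eq_mul]
  have hn : 1 ≤ n := Fin.pos k
  rw [Nat.cast_sub hn, Nat.cast_one]

/-- the reach probability -/
lemma reach (F : Fin n → ℝ) (hF : ∀ i, 0 < F i) (hF1 : ∀ i, F i ≤ 1) (k i : Fin n) :
    (n.factorial / n : ℝ) * Real.exp (-(-Real.log (∏ i, F i)) * k.val / ((n : ℝ) - 1)) ≤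
    ∑ σ : Equiv.Perm (Fin n), if σ k = i then ∏ j ∈ univ.filter (· < k), F (σ j) else 0 := by
  set lam : ℝ := -Real.log (∏ i, F i) with hlam
  set μ : ℝ := lam * k.val / ((n : ℝ) - 1) with hμ
  have hlam' : lam = -∑ i, Real.log (F i) := by
    rw [hlam, Real.log_prod fun i _ => (hF i).ne']
  have hN : (0 : ℝ) ≤ n.factorial / n := by positivity
  have h1 : ∀ σ : Equiv.Perm (Fin n),
      (if σ k = i then Real.exp (-μ) * (1 + μ) else 0) +
        Real.exp (-μ) * ∑ j ∈ univ.filter (· < k), (if σ k = i then Real.log (F (σ j)) else 0) ≤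
      if σ k = i then ∏ j ∈ univ.filter (· < k), F (σ j) else 0 := by
    intro σ
    by_cases h : σ k = i
    · simp only [h, if_true]
      have h2 : ∏ j ∈ univ.filter (· < k), F (σ j) =
          Real.exp (∑ j ∈ univ.filter (· < k), Real.log (F (σ j))) := by
        rw [Real.exp_sum]
        exact prod_congr rfl fun j _ => (Real.exp_log (hF _)).symm
      rw [h2]
      set s := ∑ j ∈ univ.filter (· < k), Real.log (F (σ j)) with hs
      have h3 := Real.add_one_le_exp (s + μ)
      have h4 : Real.exp s = Real.exp (-μ) * Real.exp (s + μ) := by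
        rw [← Real.exp_add]; congr 1; ring
      rw [h4]
      have h5 := mul_le_mul_of_nonneg_left h3 (Real.exp_pos (-μ)).le
      linarith
    · simp [h]
  refine le_trans ?_ (sum_le_sum fun σ _ => h1 σ)
  rw [sum_add_distrib, ← mul_sum, sum_comm]
  have h2 : (∑ σ : Equiv.Perm (Fin n), if σ k = i then Real.exp (-μ) * (1 + μ) else 0) =
      n.factorial / n * (Real.exp (-μ) * (1 + μ)) := by
    rw [← cnt k i, sum_mul]
    exact sum_congr rfl fun σ _ => by split_ifs <;> simp
  rw [h2]
  have h3 : -(n.factorial / n * μ) ≤ ∑ j ∈ univ.filter (· < k),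
      ∑ σ : Equiv.Perm (Fin n), (if σ k = i then Real.log (F (σ j)) else 0) := by
    by_cases hn : n ≤ 1
    · have hk : k.val = 0 := by have := k.isLt; omega
      have hμ0 : μ = 0 := by rw [hμ, hk]; simp
      have he : (univ.filter (· < k) : Finset (Fin n)) = ∅ := by
        ext j
        simp only [mem_filter, mem_univ, true_and, notMem_empty, iff_false, not_lt]
        rw [Fin.le_def]; omega
      rw [he, hμ0]; simp
    · push Not at hn
      have hn1 : (0 : ℝ) < (n : ℝ) - 1 := by
        have : (1 : ℝ) < n := by exact_mod_cast hn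
        linarith
      have h4 : ∀ j ∈ univ.filter (· < k), -(n.factorial / n * lam / ((n : ℝ) - 1)) ≤
          ∑ σ : Equiv.Perm (Fin n), (if σ k = i then Real.log (F (σ j)) else 0) := by
        intro j hj
        have hjk : j ≠ k := by
          have : j < k := by simpa using hj
          exact this.ne
        have h5 := other k i (fun i => Real.log (F i)) j hjk
        rw [neg_le, ← mul_le_mul_iff_of_pos_left hn1]
        have h6 : Real.log (F i) ≤ 0 := Real.log_nonpos (hF i).le (hF1 i)
        have h7 : ((n : ℝ) - 1) * (n.factorial / n * lam / ((n : ℝ) - 1)) =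
            n.factorial / n * lam := by field_simp
        rw [h7, mul_neg, h5, hlam']
        have h8 := mul_nonneg hN (neg_nonneg.2 h6)
        linarith
      have h9 := sum_le_sum h4
      have hc : (univ.filter (· < k) : Finset (Fin n)).card = k.val := by
        rw [show (univ.filter (· < k) : Finset (Fin n)) = Iio k from by ext; simp]
        exact Fin.card_Iio k
      rw [sum_const, hc, nsmul_eq_mul] at h9
      refine le_trans (le_of_eq ?_) h9
      rw [hμ]; ring
  have h10 := mul_le_mul_of_nonneg_left h3 (Real.exp_pos (-μ)).le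
  have h11 : -lam * (k.val : ℝ) / ((n : ℝ) - 1) = -μ := by rw [hμ]; ring
  rw [h11]
  linarith

lemma trapezoid {h : ℝ} (hh : 0 ≤ h) : 1 - Real.exp (-h) ≤ h * (1 + Real.exp (-h)) / 2 := by
  have key : MonotoneOn (fun h : ℝ => h * (1 + Real.exp (-h)) / 2 - (1 - Real.exp (-h)))
      (Set.Ici 0) := by
    refine monotoneOn_of_deriv_nonneg (convex_Ici 0) (by fun_prop) (by fun_prop) ?_
    intro x hx
    rw [interior_Ici] at hx
    have hx0 : 0 < x := hx
    have h1 : HasDerivAt (fun h : ℝ => Real.exp (-h)) (-Real.exp (-x)) x := by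
      have := (hasDerivAt_neg x).exp
      simpa using this
    have h2 : HasDerivAt (fun h : ℝ => h * (1 + Real.exp (-h)) / 2 - (1 - Real.exp (-h)))
        ((1 * (1 + Real.exp (-x)) + x * (-Real.exp (-x))) / 2 - -(-Real.exp (-x))) x := by
      exact (((hasDerivAt_id' x).fun_mul (h1.const_add 1)).div_const 2).fun_sub (h1.const_sub 1)
    rw [h2.deriv]
    have h4 : (x + 1) * Real.exp (-x) ≤ 1 := by
      have := Real.add_one_le_exp x
      calc (x + 1) * Real.exp (-x) ≤ Real.exp x * Real.exp (-x) :=
            mul_le_mul_of_nonneg_right this (Real.exp_pos _).le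
        _ = 1 := by rw [← Real.exp_add]; simp
    linarith
  have := key (Set.mem_Ici.2 le_rfl) (Set.mem_Ici.2 hh) hh
  simp at this
  linarith

/-- the average of `exp (- lam k / (n - 1))` over `k < n` -/
lemma avg_exp {n : ℕ} (hn : 1 ≤ n) {lam : ℝ} (hl : 0 < lam) :
    (n : ℝ) * ((1 - Real.exp (-lam)) / lam) ≤
    ∑ k : Fin n, Real.exp (-lam * k.val / ((n : ℝ) - 1)) := by
  rcases Nat.eq_or_lt_of_le hn with h1 | h1
  · subst h1
    simp only [Nat.cast_one, one_mul, univ_unique, Fin.default_eq_zero, Fin.isValue,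
      Fin.val_eq_zero, CharP.cast_eq_zero, mul_zero, sub_self, div_zero, Real.exp_zero,
      sum_const, card_singleton, one_smul]
    rw [div_le_one hl]
    have := Real.add_one_le_exp (-lam)
    linarith
  · obtain ⟨N, rfl⟩ : ∃ N, n = N + 1 := ⟨n - 1, by omega⟩
    have hN : 0 < N := by omega
    have hN0 : (0 : ℝ) < N := by exact_mod_cast hN
    set h : ℝ := lam / N with hh
    have hh0 : 0 < h := div_pos hl hN0
    set r : ℝ := Real.exp (-h) with hr
    have hr0 : 0 < r := Real.exp_pos _
    have hr1 : r ≤ 1 := by rw [hr]; exact Real.exp_le_one_iff.2 (by linarith)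
    have e1 : ∀ k : ℕ, Real.exp (-lam * k / (((N + 1 : ℕ) : ℝ) - 1)) = r ^ k := by
      intro k
      rw [hr, ← Real.exp_nat_mul]
      congr 1
      rw [hh]; push_cast
      have h2 : (N : ℝ) + 1 - 1 = N := by ring
      rw [h2]; ring
    have e2 : ∑ k : Fin (N + 1), Real.exp (-lam * k.val / (((N + 1 : ℕ) : ℝ) - 1)) =
        ∑ k ∈ range (N + 1), r ^ k := by
      rw [← Fin.sum_univ_eq_sum_range]
      exact sum_congr rfl fun k _ => e1 k.val
    rw [e2]
    set G : ℝ := ∑ k ∈ range (N + 1), r ^ k with hG
    have e3 : Real.exp (-lam) = r ^ N := by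
      rw [hr, ← Real.exp_nat_mul]; congr 1; rw [hh]; field_simp
    -- discrete Hermite-Hadamard
    have h2 : G ≤ (N + 1) * ((1 + r ^ N) / 2) := by
      have h3 : G = ∑ k ∈ range (N + 1), r ^ (N - k) := by
        rw [hG, ← sum_range_reflect]
        refine sum_congr rfl fun k hk => ?_
        congr 1
      have h4 : G + G ≤ ∑ k ∈ range (N + 1), (1 + r ^ N) := by
        nth_rewrite 2 [h3]
        rw [hG, ← sum_add_distrib]
        refine sum_le_sum fun k hk => ?_
        have hk' : k ≤ N := by have := mem_range.1 hk; omega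
        have h5 : r ^ k ≤ 1 := pow_le_one₀ hr0.le hr1
        have h6 : r ^ (N - k) ≤ 1 := pow_le_one₀ hr0.le hr1
        have h7 : r ^ N = r ^ k * r ^ (N - k) := by rw [← pow_add]; congr 1; omega
        rw [h7]
        nlinarith [mul_nonneg (sub_nonneg.2 h5) (sub_nonneg.2 h6)]
      rw [sum_const, card_range, nsmul_eq_mul] at h4
      push_cast at h4
      linarith
    have h3 := trapezoid hh0.le
    rw [← hr] at h3
    have h4 : G = ∑ k ∈ range N, r ^ k + r ^ N := by rw [hG, sum_range_succ]
    have h5 : (1 - r) * ∑ k ∈ range N, r ^ k = 1 - r ^ N := by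
      have := mul_neg_geom_sum r N
      linarith
    have h6 : (1 + r) * ∑ k ∈ range N, r ^ k = 2 * G - (1 + r ^ N) := by
      rw [h4]; linarith [h5]
    have hg : 0 ≤ ∑ k ∈ range N, r ^ k := sum_nonneg fun k _ => by positivity
    have h7 : 1 - r ^ N ≤ h / 2 * (2 * G - (1 + r ^ N)) := by
      rw [← h5, ← h6]
      have := mul_le_mul_of_nonneg_right h3 hg
      linarith
    rw [e3]
    have h8 : (1 + r ^ N) ≥ 2 * G / (N + 1) := by
      rw [ge_iff_le, div_le_iff₀ (by positivity)]; linarith
    have h9 : 1 - r ^ N ≤ h * G * N / (N + 1) := by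
      have h10 : h / 2 * (2 * G - (1 + r ^ N)) ≤ h / 2 * (2 * G - 2 * G / (N + 1)) :=
        mul_le_mul_of_nonneg_left (by linarith) (by positivity)
      have h11 : h / 2 * (2 * G - 2 * G / (N + 1)) = h * G * N / (N + 1) := by
        field_simp; ring
      linarith
    have h12 : (1 - r ^ N) / lam ≤ G / (N + 1) := by
      rw [div_le_iff₀ hl]
      refine h9.trans (le_of_eq ?_)
      rw [hh]; field_simp
    push_cast
    calc ((N : ℝ) + 1) * ((1 - r ^ N) / lam) ≤ (N + 1) * (G / (N + 1)) :=
          mul_le_mul_of_nonneg_left h12 (by positivity)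
      _ = G := by field_simp

/-- the total loss of the weights -/
lemma loss {n : ℕ} (hn : 1 ≤ n) : ∑ k : Fin n, (1 - wt (late n) k.val) ≤ n / 380 := by
  set t : ℕ := n / 20 with ht
  have hm : late n = n - (t + 1) := rfl
  set m := late n with hmm
  have hn0 : (0 : ℝ) < n := by exact_mod_cast hn
  rcases Nat.eq_zero_or_pos t with h0 | h0
  · have : ∑ k : Fin n, (1 - wt m k.val) = 0 := by
      refine sum_eq_zero fun k _ => ?_
      have : k.val ≤ m := by have := k.isLt; omega
      rw [wt, if_pos this]; ring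
    rw [this]; positivity
  · have hnt : 20 * t ≤ n := by omega
    have hmt : m + t + 1 = n := by omega
    have h1 : ∀ k : Fin n, 1 - wt m k.val ≤ if m < k.val then ((k.val : ℝ) - m) / (m + 1) else 0 := by
      intro k
      unfold wt
      by_cases h : k.val ≤ m
      · rw [if_pos h, if_neg (by omega)]; simp
      · rw [if_neg h, if_pos (by omega)]
        push Not at h
        have hk : (m : ℝ) + 1 ≤ k.val := by exact_mod_cast h
        have hk0 : (0 : ℝ) < k.val := by
          have : (0 : ℝ) ≤ m := by positivity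
          linarith
        have : 1 - (m : ℝ) / k.val = ((k.val : ℝ) - m) / k.val := by field_simp
        rw [this]
        exact div_le_div_of_nonneg_left (by linarith) (by positivity) hk
    refine (sum_le_sum fun k _ => h1 k).trans ?_
    have h2 : ∑ k : Fin n, (if m < k.val then ((k.val : ℝ) - m) / (m + 1) else 0) =
        ∑ k ∈ range n, (if m < k then ((k : ℝ) - m) / (m + 1) else 0) := by
      rw [← Fin.sum_univ_eq_sum_range (fun k => if m < k then ((k : ℝ) - m) / (m + 1) else 0)]
    rw [h2]
    have h3 : range n = range (m + 1) ∪ (range t).map (addLeftEmbedding (m + 1)) := by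
      rw [show n = m + 1 + t by omega, range_add_eq_union]
    have h4 : ∑ k ∈ range n, (if m < k then ((k : ℝ) - m) / (m + 1) else 0) =
        ∑ j ∈ range t, (((j : ℝ) + 1) / (m + 1)) := by
      rw [h3, sum_union (disjoint_range_addLeftEmbedding _ _), sum_map]
      rw [sum_eq_zero (s := range (m + 1)) fun k hk => if_neg (by
        have := mem_range.1 hk; omega), zero_add]
      refine sum_congr rfl fun j _ => ?_
      simp only [addLeftEmbedding_apply]
      rw [if_pos (by omega)]
      push_cast
      congr 1; ring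
    rw [h4, ← sum_div, sum_add_distrib, sum_const, card_range, nsmul_eq_mul, mul_one]
    have h5 : (∑ j ∈ range t, (j : ℝ)) = t * (t - 1) / 2 := by
      have := Finset.sum_range_id_mul_two t
      have h6 : ((∑ j ∈ range t, j : ℕ) : ℝ) * 2 = t * (t - 1 : ℕ) := by exact_mod_cast this
      rw [Nat.cast_sub h0] at h6
      push_cast at h6
      linarith
    rw [h5]
    have hm0 : (0 : ℝ) < (m : ℝ) + 1 := by positivity
    rw [div_le_iff₀ hm0]
    have h7 : (m : ℝ) + 1 = n - t := by
      have : (m : ℝ) + t + 1 = n := by exact_mod_cast hmt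
      linarith
    rw [h7]
    have h8 : (20 : ℝ) * t ≤ n := by exact_mod_cast hnt
    have h9 : (1 : ℝ) ≤ t := by exact_mod_cast h0
    nlinarith [mul_nonneg (sub_nonneg.2 h8) (sub_nonneg.2 h8), mul_nonneg (sub_nonneg.2 h8)
      (sub_nonneg.2 h9), mul_nonneg (sub_nonneg.2 h9) (sub_nonneg.2 h9)]

end Q293.PS
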