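import Mathlib

/-!
# Prophet secretary with one quantile query on the maximum: the model
-/

open MeasureTheory

namespace Q293.PS

/-- A strategy of the single-query model. With `n` values it asks for the `q n`-quantile of the
maximum; `accept n v k z` says that, with `n` values and the answer `v` to the query, the value
`z k` is accepted if the values revealed so far are `z 0, …, z k` (and none was accepted
before). -/
structure Strategy where
  /-- the quantile that is queried -/
  q : ℕ → ℝ
  q_mem : ∀ n, q n ∈ Set.Icc (0 : ℝ) 1
  /-- the decision rule -/
  accept : ℕ → ℝ → (k : ℕ) → (Fin (k + 1) → ℝ) → Prop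

/-- The values revealed up to (and including) step `k`, if they are revealed in the order
`y 0, y 1, …`. -/
def seen {n : ℕ} (y : Fin n → ℝ) (k : Fin n) : Fin (k.val + 1) → ℝ :=
  fun j => y (Fin.castLE k.isLt j)

open Classical in
/-- The value of the first accepted item (`0` if nothing is accepted) if the values are revealed
in the order `y 0, y 1, …` and the answer to the query is `v`. -/
noncomputable def payoff (A : Strategy) {n : ℕ} (v : ℝ) (y : Fin n → ℝ) : ℝ :=
  ∑ k : Fin n, if A.accept n v k (seen y k) ∧ ∀ j < k, ¬ A.accept n v j (seen y j) then y k else 0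

/-- `ALG`: the expected accepted value, for independent values with laws `D i` revealed in a
uniformly random order that is independent of the values. -/
noncomputable def alg (A : Strategy) {n : ℕ} (D : Fin n → Measure ℝ) (v : ℝ) : ℝ :=
  (∑ σ : Equiv.Perm (Fin n), ∫ x, payoff A v (fun k => x (σ k)) ∂Measure.pi D) / (n.factorial : ℝ)

/-- `OPT`: the expected maximum. -/
noncomputable def opt {n : ℕ} (D : Fin n → Measure ℝ) : ℝ := ∫ x, (⨆ i, x i) ∂Measure.pi D

/-- The laws of an instance: `n ≥ 1` probability measures without atoms on the nonnegative
reals such that the expected maximum is finite. -/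
structure IsInstance {n : ℕ} (D : Fin n → Measure ℝ) : Prop where
  pos : 1 ≤ n
  prob : ∀ i, IsProbabilityMeasure (D i)
  noAtoms : ∀ i t, D i {t} = 0
  nonneg : ∀ i, D i (Set.Iio 0) = 0
  integrable : Integrable (fun x : Fin n → ℝ => ⨆ i, x i) (Measure.pi D)

/-- `v` is a correct answer to the query of the quantile `q`: the maximum exceeds `v` with
probability `q`. -/
def IsAnswer {n : ℕ} (D : Fin n → Measure ℝ) (q v : ℝ) : Prop :=
  (Measure.pi D).real {x | v < ⨆ i, x i} = q

/-- The competitive ratio: the infimum of `ALG / OPT` over all `n`, all instances with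
`0 < OPT` and all correct answers to the query. -/
noncomputable def ratio (A : Strategy) : ℝ :=
  sInf {r | ∃ (n : ℕ) (D : Fin n → Measure ℝ) (v : ℝ), IsInstance D ∧ IsAnswer D (A.q n) v ∧
    0 < opt D ∧ r = alg A D v / opt D}

end Q293.PS
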