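import Pool.Agent.Q293.PS.Num

open Finset MeasureTheory ProbabilityTheory

namespace Q293.PS

variable {n : ℕ} {D : Fin n → Measure ℝ}

lemma ae_nonneg (h : IsInstance D) : ∀ᵐ x ∂Measure.pi D, ∀ i, 0 ≤ x i := by
  have := h.prob
  rw [ae_all_iff]
  intro i
  have h1 : ∀ᵐ t ∂(D i), 0 ≤ t := by
    rw [ae_iff]
    simpa [Set.Iio] using h.nonneg i
  exact (measurePreserving_eval D i).quasiMeasurePreserving.ae h1

lemma ae_pos (h : IsInstance D) (i : Fin n) : ∀ᵐ x ∂Measure.pi D, 0 < x i := by
  have := h.prob
  have h1 : ∀ᵐ t ∂(D i), 0 < t := by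
    have h2 : ∀ᵐ t ∂(D i), 0 ≤ t := by
      rw [ae_iff]
      simpa [Set.Iio] using h.nonneg i
    have h3 : ∀ᵐ t ∂(D i), t ≠ 0 := by
      rw [ae_iff]
      simpa using h.noAtoms i 0
    filter_upwards [h2, h3] with t h4 h5
    exact lt_of_le_of_ne h4 h5.symm
  exact (measurePreserving_eval D i).quasiMeasurePreserving.ae h1

lemma ae_inj (h : IsInstance D) : ∀ᵐ x ∂Measure.pi D, Function.Injective x := by
  have := h.prob
  have h1 : ∀ i j : Fin n, i ≠ j → ∀ᵐ x ∂Measure.pi D, x i ≠ x j := by
    intro i j hij
    have h2 : iIndepFun (fun i (x : Fin n → ℝ) => x i) (Measure.pi D) :=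
      iIndepFun_pi (X := fun _ => id) (fun i => aemeasurable_id)
    have h3 := h2.indepFun hij
    have h4 := (indepFun_iff_map_prod_eq_prod_map_map (measurable_pi_apply i).aemeasurable
      (measurable_pi_apply j).aemeasurable).1 h3
    have e1 : Measure.map (fun x : Fin n → ℝ => x i) (Measure.pi D) = D i :=
      (measurePreserving_eval D i).map_eq
    have e2 : Measure.map (fun x : Fin n → ℝ => x j) (Measure.pi D) = D j :=
      (measurePreserving_eval D j).map_eq
    rw [e1, e2] at h4
    have h5 : MeasurableSet {p : ℝ × ℝ | p.1 = p.2} := measurableSet_eq_fun measurable_fst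
      measurable_snd
    have h6 : ((D i).prod (D j)) {p : ℝ × ℝ | p.1 = p.2} = 0 := by
      rw [Measure.prod_apply h5, lintegral_eq_zero_iff (measurable_measure_prodMk_left h5)]
      refine Filter.Eventually.of_forall fun t => ?_
      have : Prod.mk t ⁻¹' {p : ℝ × ℝ | p.1 = p.2} = {t} := by
        ext s; simp [eq_comm]
      simp only [this]
      exact h.noAtoms j t
    rw [← h4, Measure.map_apply ((measurable_pi_apply i).prodMk (measurable_pi_apply j)) h5] at h6
    rw [ae_iff]
    simpa using h6
  have h7 : ∀ᵐ x ∂Measure.pi D, ∀ i j : Fin n, i ≠ j → x i ≠ x j := by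
    rw [ae_all_iff]; intro i
    rw [ae_all_iff]; intro j
    by_cases hij : i = j
    · exact Filter.Eventually.of_forall fun x hne => absurd hij hne
    · filter_upwards [h1 i j hij] with x hx _
      exact hx
  filter_upwards [h7] with x hx i j hij
  by_contra hne
  exact hx i j hne hij

lemma iSup_le_iff' {n : ℕ} (hn : 1 ≤ n) (x : Fin n → ℝ) (v : ℝ) :
    (⨆ i, x i) ≤ v ↔ ∀ i, x i ≤ v := by
  have : Nonempty (Fin n) := ⟨⟨0, hn⟩⟩
  exact ciSup_le_iff (Set.finite_range x).bddAbove

lemma int_coord (h : IsInstance D) (i : Fin n) :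
    Integrable (fun x : Fin n → ℝ => x i) (Measure.pi D) := by
  have := h.prob
  refine h.integrable.mono (measurable_pi_apply i).aestronglyMeasurable ?_
  filter_upwards [ae_nonneg h] with x hx
  rw [Real.norm_eq_abs, Real.norm_eq_abs, abs_of_nonneg (hx i)]
  exact (le_ciSup (Set.finite_range x).bddAbove i).trans (le_abs_self _)

lemma int_id (h : IsInstance D) (i : Fin n) : Integrable (fun t : ℝ => t) (D i) := by
  have := h.prob
  have h1 := (measurePreserving_eval D i).integrable_comp
    (g := fun t : ℝ => t) measurable_id.aestronglyMeasurable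
  exact h1.1 (int_coord h i)

/-- the mean of the excess over the answer -/
noncomputable def exc (D : Fin n → Measure ℝ) (v : ℝ) (i : Fin n) : ℝ :=
  ∫ t, max (t - v) 0 ∂(D i)

/-- the distribution functions at the answer -/
noncomputable def dist (D : Fin n → Measure ℝ) (v : ℝ) (i : Fin n) : ℝ := (D i).real (Set.Iic v)

lemma exc_nonneg (v : ℝ) (i : Fin n) : 0 ≤ exc D v i :=
  integral_nonneg fun _ => le_max_right _ _

lemma int_exc (h : IsInstance D) (v : ℝ) (i : Fin n) :
    Integrable (fun t : ℝ => max (t - v) 0) (D i) := by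
  have := h.prob
  exact ((int_id h i).sub (integrable_const v)).sup (integrable_const 0)

/-- the value if it is above the answer -/
noncomputable def top (v t : ℝ) : ℝ := if v < t then t else 0

lemma top_eq (v t : ℝ) : top v t = max (t - v) 0 + v * (1 - (Set.Iic v).indicator 1 t) := by
  unfold top
  by_cases h : v < t
  · rw [if_pos h, Set.indicator_of_notMem (by simpa using h), max_eq_left (by linarith)]
    ring
  · push Not at h
    rw [if_neg (not_lt.2 h), Set.indicator_of_mem (by simpa using h), max_eq_right (by linarith)]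
    simp

lemma int_ind (h : IsInstance D) (v : ℝ) (i : Fin n) :
    Integrable ((Set.Iic v).indicator (1 : ℝ → ℝ)) (D i) := by
  have := h.prob
  exact (integrable_const (1 : ℝ)).indicator measurableSet_Iic

lemma int_top (h : IsInstance D) (v : ℝ) (i : Fin n) : Integrable (top v) (D i) := by
  have := h.prob
  have : top v = fun t => max (t - v) 0 + v * (1 - (Set.Iic v).indicator (1 : ℝ → ℝ) t) :=
    funext (top_eq v)
  rw [this]
  exact (int_exc h v i).add (((integrable_const (1 : ℝ)).sub (int_ind h v i)).const_mul v)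

lemma integral_ind (h : IsInstance D) (v : ℝ) (i : Fin n) :
    ∫ t, (Set.Iic v).indicator (1 : ℝ → ℝ) t ∂(D i) = dist D v i := by
  have := h.prob
  rw [integral_indicator_one measurableSet_Iic]
  rfl

lemma integral_top (h : IsInstance D) (v : ℝ) (i : Fin n) :
    ∫ t, top v t ∂(D i) = exc D v i + v * (1 - dist D v i) := by
  have := h.prob
  simp_rw [top_eq]
  have hI : Integrable (fun t => v * (1 - (Set.Iic v).indicator (1 : ℝ → ℝ) t)) (D i) :=
    ((integrable_const (1 : ℝ)).sub (int_ind h v i)).const_mul v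
  rw [integral_add (int_exc h v i) hI, integral_const_mul,
    integral_sub (integrable_const _) (int_ind h v i), integral_ind h]
  simp [exc]

/-- the factor of the coordinate `i` -/
noncomputable def fac (v : ℝ) (σ : Equiv.Perm (Fin n)) (k i : Fin n) (t : ℝ) : ℝ :=
  if σ.symm i < k then (Set.Iic v).indicator (1 : ℝ → ℝ) t else
    if σ.symm i = k then top v t else 1

lemma int_fac (h : IsInstance D) (v : ℝ) (σ : Equiv.Perm (Fin n)) (k i : Fin n) :
    Integrable (fac v σ k i) (D i) := by
  have := h.prob
  unfold fac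
  split_ifs
  · exact int_ind h v i
  · exact int_top h v i
  · exact integrable_const _

open Classical in
lemma term_eq (v : ℝ) (σ : Equiv.Perm (Fin n)) (k : Fin n) (x : Fin n → ℝ) :
    (if Low v (fun i => x (σ i)) k.val ∧ v < x (σ k) then x (σ k) else 0) =
      ∏ i, fac v σ k i (x i) := by
  rw [← Equiv.prod_comp σ]
  simp only [fac, Equiv.symm_apply_apply]
  have h1 : ∏ j : Fin n, (if j < k then (Set.Iic v).indicator (1 : ℝ → ℝ) (x (σ j)) else
      if j = k then top v (x (σ j)) else 1) =
      (∏ j ∈ univ.filter (· < k), (Set.Iic v).indicator (1 : ℝ → ℝ) (x (σ j))) *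
        top v (x (σ k)) := by
    rw [← mul_prod_erase univ _ (mem_univ k), if_neg (lt_irrefl k), if_pos rfl, mul_comm]
    congr 1
    rw [prod_filter, ← mul_prod_erase univ _ (mem_univ k), if_neg (lt_irrefl k), one_mul]
    refine prod_congr rfl fun j hj => ?_
    have hjk : j ≠ k := ne_of_mem_erase hj
    by_cases h : j < k
    · rw [if_pos h, if_pos h]
    · rw [if_neg h, if_neg h, if_neg hjk]
  rw [h1]
  by_cases h2 : Low v (fun i => x (σ i)) k.val
  · have h3 : (∏ j ∈ univ.filter (· < k), (Set.Iic v).indicator (1 : ℝ → ℝ) (x (σ j))) = 1 := by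
      refine prod_eq_one fun j hj => ?_
      have hj' : j < k := by simpa using hj
      rw [Set.indicator_of_mem]
      · rfl
      · exact h2 j (Fin.lt_def.1 hj')
    rw [h3, one_mul, top]
    by_cases h4 : v < x (σ k)
    · rw [if_pos ⟨h2, h4⟩, if_pos h4]
    · rw [if_neg (fun h => h4 h.2), if_neg h4]
  · rw [if_neg (fun h => h2 h.1)]
    unfold Low at h2
    push Not at h2
    obtain ⟨j, hj, hj'⟩ := h2
    have h5 : (∏ j ∈ univ.filter (· < k), (Set.Iic v).indicator (1 : ℝ → ℝ) (x (σ j))) = 0 := by
      refine prod_eq_zero (i := j) (by simpa using Fin.lt_def.2 hj) ?_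
      exact Set.indicator_of_notMem (by simpa using hj') _
    rw [h5, zero_mul]

open Classical in
lemma integral_term (h : IsInstance D) (v : ℝ) (σ : Equiv.Perm (Fin n)) (k : Fin n) :
    ∫ x, (if Low v (fun i => x (σ i)) k.val ∧ v < x (σ k) then x (σ k) else 0) ∂Measure.pi D =
      (∏ j ∈ univ.filter (· < k), dist D v (σ j)) *
        (exc D v (σ k) + v * (1 - dist D v (σ k))) := by
  have := h.prob
  simp_rw [term_eq]
  rw [integral_fintype_prod_eq_prod, ← Equiv.prod_comp σ]
  simp only [fac, Equiv.symm_apply_apply]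
  rw [← mul_prod_erase univ _ (mem_univ k)]
  simp only [lt_irrefl, if_false, if_true]
  rw [integral_top h, mul_comm]
  congr 1
  rw [prod_filter, ← mul_prod_erase univ (fun j => if j < k then dist D v (σ j) else 1)
    (mem_univ k), if_neg (lt_irrefl k), one_mul]
  refine prod_congr rfl fun j hj => ?_
  have hjk : j ≠ k := ne_of_mem_erase hj
  by_cases h' : j < k
  · simp only [h', if_true]
    exact integral_ind h v _
  · simp only [h', if_false, hjk]
    simp

open Classical in
lemma int_term (h : IsInstance D) (v : ℝ) (σ : Equiv.Perm (Fin n)) (k : Fin n) :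
    Integrable (fun x : Fin n → ℝ =>
      (if Low v (fun i => x (σ i)) k.val ∧ v < x (σ k) then x (σ k) else 0)) (Measure.pi D) := by
  have := h.prob
  simp_rw [term_eq]
  exact Integrable.fintype_prod_dep fun i => int_fac h v σ k i

end Q293.PS
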