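import Pool.Agent.Q293.PS.Int

open Finset MeasureTheory ProbabilityTheory

namespace Q293.PS

variable {n : ℕ} {D : Fin n → Measure ℝ}

open Classical in
lemma meas_acc (m : ℕ) (v : ℝ) (σ : Equiv.Perm (Fin n)) (k : Fin n) :
    MeasurableSet {x : Fin n → ℝ | Acc m v (fun i => x (σ i)) k} := by
  unfold Acc
  have h1 : MeasurableSet {x : Fin n → ℝ | v < x (σ k)} :=
    measurableSet_lt measurable_const (measurable_pi_apply _)
  have h2 : MeasurableSet {x : Fin n → ℝ | 9 / 10 * v ≤ x (σ k)} :=
    measurableSet_le measurable_const (measurable_pi_apply _)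
  have h3 : MeasurableSet {x : Fin n → ℝ | ∀ j < k, x (σ j) < x (σ k)} := by
    have : {x : Fin n → ℝ | ∀ j < k, x (σ j) < x (σ k)} =
        ⋂ j : Fin n, ⋂ (_ : j < k), {x : Fin n → ℝ | x (σ j) < x (σ k)} := by
      ext x; simp
    rw [this]
    exact MeasurableSet.iInter fun j => MeasurableSet.iInter fun _ =>
      measurableSet_lt (measurable_pi_apply _) (measurable_pi_apply _)
  by_cases hm : m ≤ k.val
  · have : {x : Fin n → ℝ | v < x (σ k) ∨ m ≤ k.val ∧ 9 / 10 * v ≤ x (σ k) ∧
        ∀ j < k, x (σ j) < x (σ k)} = {x | v < x (σ k)} ∪ ({x | 9 / 10 * v ≤ x (σ k)} ∩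
          {x | ∀ j < k, x (σ j) < x (σ k)}) := by
      ext x; simp [hm]
    rw [this]
    exact h1.union (h2.inter h3)
  · have : {x : Fin n → ℝ | v < x (σ k) ∨ m ≤ k.val ∧ 9 / 10 * v ≤ x (σ k) ∧
        ∀ j < k, x (σ j) < x (σ k)} = {x | v < x (σ k)} := by
      ext x; simp [hm]
    rw [this]
    exact h1

open Classical in
lemma int_pay (h : IsInstance D) (m : ℕ) (v : ℝ) (σ : Equiv.Perm (Fin n)) :
    Integrable (fun x : Fin n → ℝ => pay m v (fun i => x (σ i))) (Measure.pi D) := by
  have := h.prob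
  unfold pay
  refine integrable_finsetSum _ fun k _ => ?_
  have h1 : MeasurableSet {x : Fin n → ℝ | Acc m v (fun i => x (σ i)) k ∧
      ∀ j < k, ¬ Acc m v (fun i => x (σ i)) j} := by
    have : {x : Fin n → ℝ | Acc m v (fun i => x (σ i)) k ∧
      ∀ j < k, ¬ Acc m v (fun i => x (σ i)) j} = {x : Fin n → ℝ | Acc m v (fun i => x (σ i)) k} ∩
        ⋂ j : Fin n, ⋂ (_ : j < k), {x : Fin n → ℝ | Acc m v (fun i => x (σ i)) j}ᶜ := by
      ext x; simp
    rw [this]
    exact (meas_acc m v σ k).inter (MeasurableSet.iInter fun j => MeasurableSet.iInter fun _ =>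
      (meas_acc m v σ j).compl)
  have h2 := (int_coord h (σ k)).indicator h1
  refine h2.congr (Filter.Eventually.of_forall fun x => ?_)
  simp only [Set.indicator_apply, Set.mem_ofPred_eq]

open Classical in
/-- the main inequality -/
theorem main_ineq (h : IsInstance D) (v : ℝ) (hv : IsAnswer D (5 / 8) v) :
    634 / 1000 * opt D ≤ alg strat D v := by
  have hprob := h.prob
  have hn := h.pos
  have hn0 : (0 : ℝ) < n := by exact_mod_cast hn
  have : Nonempty (Fin n) := ⟨⟨0, hn⟩⟩
  set μ := Measure.pi D with hμ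
  set F : Fin n → ℝ := dist D v with hF
  set S : Fin n → ℝ := exc D v with hS
  have hF0 : ∀ i, 0 ≤ F i := fun i => measureReal_nonneg
  have hF1 : ∀ i, F i ≤ 1 := fun i => measureReal_le_one
  -- the event that all values are at most `v`
  have hmeasle : MeasurableSet {x : Fin n → ℝ | ∀ i, x i ≤ v} := by
    have : {x : Fin n → ℝ | ∀ i, x i ≤ v} = ⋂ i, {x : Fin n → ℝ | x i ≤ v} := by ext; simp
    rw [this]
    exact MeasurableSet.iInter fun i => measurableSet_le (measurable_pi_apply _) measurable_const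
  have hPle : μ.real {x : Fin n → ℝ | ∀ i, x i ≤ v} = 3 / 8 := by
    have h1 : {x : Fin n → ℝ | ∀ i, x i ≤ v} = {x : Fin n → ℝ | v < ⨆ i, x i}ᶜ := by
      ext x
      simp only [Set.mem_ofPred_eq, Set.mem_compl_iff, not_lt]
      exact (iSup_le_iff' hn x v).symm
    have h2 : MeasurableSet {x : Fin n → ℝ | v < ⨆ i, x i} := by
      rw [← MeasurableSet.compl_iff, ← h1]; exact hmeasle
    rw [h1, probReal_compl_eq_one_sub h2]
    have h3 : μ.real {x : Fin n → ℝ | v < ⨆ i, x i} = 5 / 8 := hv
    rw [h3]; norm_num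
  have hP : ∏ i, F i = 3 / 8 := by
    rw [← hPle]
    have h1 : {x : Fin n → ℝ | ∀ i, x i ≤ v} = Set.univ.pi fun _ => Set.Iic v := by
      ext x; simp [Pi.le_def]
    rw [h1, measureReal_def, hμ, Measure.pi_pi, ENNReal.toReal_prod]
    rfl
  have hFpos : ∀ i, 0 < F i := by
    intro i
    refine lt_of_le_of_ne (hF0 i) fun h0 => ?_
    have := prod_eq_zero (mem_univ i) h0.symm
    rw [hP] at this
    norm_num at this
  have hv0 : 0 ≤ v := by
    by_contra hneg
    push Not at hneg
    have h1 : F ⟨0, hn⟩ = 0 := by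
      have h2 : (D ⟨0, hn⟩) (Set.Iic v) = 0 :=
        measure_mono_null (fun t ht => lt_of_le_of_lt (Set.mem_Iic.1 ht) hneg) (h.nonneg _)
      simp only [hF, dist, measureReal_def, h2, ENNReal.toReal_zero]
    exact (hFpos ⟨0, hn⟩).ne' h1
  have hS0 : ∀ i, 0 ≤ S i := fun i => exc_nonneg v i
  -- the event that the maximum is slightly below `v`
  set E : Set (Fin n → ℝ) := {x | (∀ i, x i ≤ v) ∧ ∃ i, 9 / 10 * v ≤ x i} with hE
  have hEm : MeasurableSet E := by
    have h1 : E = {x : Fin n → ℝ | ∀ i, x i ≤ v} ∩ ⋃ i, {x : Fin n → ℝ | 9 / 10 * v ≤ x i} := by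
      ext x; simp [hE]
    rw [h1]
    exact hmeasle.inter (MeasurableSet.iUnion fun i =>
      measurableSet_le measurable_const (measurable_pi_apply _))
  set a : ℝ := μ.real E with ha
  have ha0 : 0 ≤ a := measureReal_nonneg
  have ha1 : a ≤ 3 / 8 := by
    rw [← hPle]
    exact measureReal_mono (fun x hx => hx.1)
  -- OPT
  have hopt : opt D ≤ v - v / 10 * (3 / 8 - a) + ∑ i, S i := by
    have h1 : ∀ x : Fin n → ℝ, (⨆ i, x i) ≤ v - v / 10 *
        (({x : Fin n → ℝ | ∀ i, x i ≤ v}.indicator (1 : (Fin n → ℝ) → ℝ) x) -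
          E.indicator (1 : (Fin n → ℝ) → ℝ) x) + ∑ i, max (x i - v) 0 := by
      intro x
      have h2 : 0 ≤ ∑ i, max (x i - v) 0 := sum_nonneg fun i _ => le_max_right _ _
      by_cases h3 : ∀ i, x i ≤ v
      · rw [Set.indicator_of_mem (show x ∈ {x : Fin n → ℝ | ∀ i, x i ≤ v} from h3)]
        by_cases h4 : ∃ i, 9 / 10 * v ≤ x i
        · rw [Set.indicator_of_mem (show x ∈ E from ⟨h3, h4⟩)]
          have h5 := (iSup_le_iff' hn x v).2 h3
          simp only [Pi.one_apply]
          linarith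
        · rw [Set.indicator_of_notMem (fun h5 : x ∈ E => h4 h5.2)]
          push Not at h4
          have h5 := (iSup_le_iff' hn x (9 / 10 * v)).2 fun i => (h4 i).le
          simp only [Pi.one_apply]
          linarith
      · rw [Set.indicator_of_notMem (fun h4 : x ∈ {x : Fin n → ℝ | ∀ i, x i ≤ v} => h3 h4),
          Set.indicator_of_notMem (fun h4 : x ∈ E => h3 h4.1)]
        have h5 : (⨆ i, x i) ≤ v + ∑ i, max (x i - v) 0 := by
          rw [iSup_le_iff' hn]
          intro i
          have h6 : max (x i - v) 0 ≤ ∑ i, max (x i - v) 0 :=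
            single_le_sum (f := fun i => max (x i - v) 0)
            (fun j _ => le_max_right _ _) (mem_univ i)
          have h7 := le_max_left (x i - v) 0
          linarith
        linarith
    have hI1 : Integrable ({x : Fin n → ℝ | ∀ i, x i ≤ v}.indicator (1 : (Fin n → ℝ) → ℝ)) μ :=
      (integrable_const (1 : ℝ)).indicator hmeasle
    have hI2 : Integrable (E.indicator (1 : (Fin n → ℝ) → ℝ)) μ :=
      (integrable_const (1 : ℝ)).indicator hEm
    have hI3 : ∀ i : Fin n, Integrable (fun x : Fin n → ℝ => max (x i - v) 0) μ := fun i =>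
      ((int_coord h i).sub (integrable_const v)).sup (integrable_const 0)
    have hI4 : Integrable (fun x : Fin n → ℝ => v - v / 10 *
        (({x : Fin n → ℝ | ∀ i, x i ≤ v}.indicator (1 : (Fin n → ℝ) → ℝ) x) -
          E.indicator (1 : (Fin n → ℝ) → ℝ) x)) μ :=
      (integrable_const v).sub ((hI1.sub hI2).const_mul _)
    have hI5 : Integrable (fun x : Fin n → ℝ => ∑ i, max (x i - v) 0) μ :=
      integrable_finsetSum _ fun i _ => hI3 i
    have h2 := integral_mono h.integrable (hI4.add hI5) h1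
    have h3 : ∫ x : Fin n → ℝ, ((fun x : Fin n → ℝ => v - v / 10 *
        (({x : Fin n → ℝ | ∀ i, x i ≤ v}.indicator (1 : (Fin n → ℝ) → ℝ) x) -
          E.indicator (1 : (Fin n → ℝ) → ℝ) x)) +
            fun x : Fin n → ℝ => ∑ i, max (x i - v) 0) x ∂μ =
        v - v / 10 * (3 / 8 - a) + ∑ i, S i := by
      have e1 : ∫ x : Fin n → ℝ, ((fun x : Fin n → ℝ => v - v / 10 *
        (({x : Fin n → ℝ | ∀ i, x i ≤ v}.indicator (1 : (Fin n → ℝ) → ℝ) x) -
          E.indicator (1 : (Fin n → ℝ) → ℝ) x)) +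
            fun x : Fin n → ℝ => ∑ i, max (x i - v) 0) x ∂μ =
        ∫ x : Fin n → ℝ, (v - v / 10 *
        (({x : Fin n → ℝ | ∀ i, x i ≤ v}.indicator (1 : (Fin n → ℝ) → ℝ) x) -
          E.indicator (1 : (Fin n → ℝ) → ℝ) x)) ∂μ +
            ∫ x : Fin n → ℝ, ∑ i, max (x i - v) 0 ∂μ :=
        integral_add hI4 hI5
      rw [e1, integral_finsetSum _ fun i _ => hI3 i]
      have hI6 : Integrable (fun x : Fin n → ℝ => v / 10 *
        (({x : Fin n → ℝ | ∀ i, x i ≤ v}.indicator (1 : (Fin n → ℝ) → ℝ) x) -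
          E.indicator (1 : (Fin n → ℝ) → ℝ) x)) μ := (hI1.sub hI2).const_mul _
      rw [integral_sub (integrable_const v) hI6, integral_const_mul, integral_sub hI1 hI2,
        integral_indicator_one hmeasle, integral_indicator_one hEm, hPle]
      have e2 : ∀ i : Fin n, ∫ x : Fin n → ℝ, max (x i - v) 0 ∂μ = S i := by
        intro i
        have e3 : Measure.map (fun x : Fin n → ℝ => x i) μ = D i :=
          (measurePreserving_eval D i).map_eq
        have e4 : S i = ∫ t, max (t - v) 0 ∂(Measure.map (fun x : Fin n → ℝ => x i) μ) := by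
          rw [e3]; rfl
        rw [e4, integral_map (measurable_pi_apply i).aemeasurable]
        exact (((measurable_id.sub_const v).max measurable_const)).aestronglyMeasurable
      rw [sum_congr rfl fun i _ => e2 i]
      simp [ha]
    rw [h3] at h2
    exact h2
  -- ALG
  have hpath : ∀ᵐ x ∂μ,
      (∑ k : Fin n, wt (late n) k.val * ∑ σ : Equiv.Perm (Fin n),
        (if Low v (fun i => x (σ i)) k.val ∧ v < x (σ k) then x (σ k) else 0)) +
      (9 / 10 * v) * (((n : ℝ) - late n) / n * n.factorial) *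
        E.indicator (1 : (Fin n → ℝ) → ℝ) x ≤
      ∑ σ : Equiv.Perm (Fin n), pay (late n) v (fun i => x (σ i)) := by
    filter_upwards [ae_nonneg h, ae_inj h] with x hx0 hx
    have h1 := path x hx hx0 v hv0 (m := late n) (Nat.sub_le _ _) hn
    have h2 : E.indicator (1 : (Fin n → ℝ) → ℝ) x =
        if (∀ i, x i ≤ v) ∧ ∃ i, 9 / 10 * v ≤ x i then 1 else 0 := by
      rw [Set.indicator_apply]; rfl
    rw [h2]
    exact h1
  have hIk : ∀ k : Fin n, Integrable (fun x : Fin n → ℝ => wt (late n) k.val *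
      ∑ σ : Equiv.Perm (Fin n),
        (if Low v (fun i => x (σ i)) k.val ∧ v < x (σ k) then x (σ k) else 0)) μ := fun k =>
    (integrable_finsetSum _ fun σ _ => int_term h v σ k).const_mul _
  have hIs : Integrable (fun x : Fin n → ℝ => ∑ k : Fin n, wt (late n) k.val *
      ∑ σ : Equiv.Perm (Fin n),
        (if Low v (fun i => x (σ i)) k.val ∧ v < x (σ k) then x (σ k) else 0)) μ :=
    integrable_finsetSum _ fun k _ => hIk k
  have hIE : Integrable (fun x : Fin n → ℝ => (9 / 10 * v) *
      (((n : ℝ) - late n) / n * n.factorial) * E.indicator (1 : (Fin n → ℝ) → ℝ) x) μ :=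
    ((integrable_const (1 : ℝ)).indicator hEm).const_mul _
  have hIp : Integrable (fun x : Fin n → ℝ => ∑ σ : Equiv.Perm (Fin n),
      pay (late n) v (fun i => x (σ i))) μ := integrable_finsetSum _ fun σ _ => int_pay h _ v σ
  have h1 := integral_mono_ae (hIs.add hIE) hIp hpath
  have h2 : ∫ x, ∑ σ : Equiv.Perm (Fin n), pay (late n) v (fun i => x (σ i)) ∂μ =
      alg strat D v * n.factorial := by
    unfold alg
    rw [div_mul_cancel₀ _ (by positivity), integral_finsetSum _ fun σ _ => int_pay h _ v σ]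
    refine sum_congr rfl fun σ _ => ?_
    refine integral_congr_ae (Filter.Eventually.of_forall fun x => ?_)
    exact (payoff_eq v _).symm
  have h3 : ∫ x, ((fun x : Fin n → ℝ => ∑ k : Fin n, wt (late n) k.val *
      ∑ σ : Equiv.Perm (Fin n),
        (if Low v (fun i => x (σ i)) k.val ∧ v < x (σ k) then x (σ k) else 0)) +
        fun x => (9 / 10 * v) * (((n : ℝ) - late n) / n * n.factorial) *
        E.indicator (1 : (Fin n → ℝ) → ℝ) x) x ∂μ =
      (∑ k : Fin n, wt (late n) k.val * ∑ σ : Equiv.Perm (Fin n),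
        (∏ j ∈ univ.filter (· < k), F (σ j)) * S (σ k)) +
      v * (∑ k : Fin n, wt (late n) k.val * ∑ σ : Equiv.Perm (Fin n),
        (∏ j ∈ univ.filter (· < k), F (σ j)) * (1 - F (σ k))) +
      (9 / 10 * v) * (((n : ℝ) - late n) / n * n.factorial) * a := by
    have e1 := integral_add hIs hIE
    refine e1.trans ?_
    rw [integral_const_mul, integral_indicator_one hEm, integral_finsetSum _ fun k _ => hIk k]
    congr 1
    rw [mul_sum, ← sum_add_distrib]
    refine sum_congr rfl fun k _ => ?_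
    rw [integral_const_mul, integral_finsetSum _ fun σ _ => int_term h v σ k,
      sum_congr rfl fun σ _ => integral_term h v σ k]
    rw [mul_sum, mul_sum, mul_sum, mul_sum, ← sum_add_distrib]
    refine sum_congr rfl fun σ _ => ?_
    ring
  have h4 := alg1 hn F S hFpos hF1 hP hS0
  have h5 := alg2 hn F hFpos hF1 hP
  have h6 := alg3 hn
  have hf : (0 : ℝ) < n.factorial := by positivity
  have h7 : 634 / 1000 * ∑ i, S i + v * 0.6224 + 9 / 10 * v * (1 / 20) * a ≤ alg strat D v := by
    rw [← mul_le_mul_iff_of_pos_right hf]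
    rw [← h2]
    refine le_trans ?_ h1
    refine le_trans ?_ (le_of_eq h3.symm)
    have h8 := mul_le_mul_of_nonneg_left h5 hv0
    have h9 : 9 / 10 * v * (1 / 20) * a * n.factorial ≤
        (9 / 10 * v) * (((n : ℝ) - late n) / n * n.factorial) * a := by
      have := mul_le_mul_of_nonneg_right h6 (show 0 ≤ 9 / 10 * v * a * n.factorial by positivity)
      linarith
    linarith
  have h10 := final hv0 ha1 h7
  linarith

end Q293.PS
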