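import Pool.Agent.Q293.PS.Alg

open Finset

namespace Q293.PS

variable {n : ℕ}

lemma log_bound : -Real.log (3 / 8) ≤ 0.9815 := by
  rw [neg_le, Real.le_log_iff_exp_le (by norm_num)]
  rw [Real.exp_neg, inv_le_comm₀ (Real.exp_pos _) (by norm_num)]
  have h1 := Real.sum_le_exp_of_nonneg (x := 0.9815) (by norm_num) 8
  refine le_trans ?_ h1
  simp only [Finset.sum_range_succ, Finset.sum_range_zero, Nat.factorial]
  norm_num

lemma log_pos : 0 < -Real.log (3 / 8) := by
  have := Real.log_neg (show (0:ℝ) < 3 / 8 by norm_num) (by norm_num)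
  linarith

/-- the part of the gain above the answer -/
lemma alg1 (hn : 1 ≤ n) (F S : Fin n → ℝ) (hF : ∀ i, 0 < F i) (hF1 : ∀ i, F i ≤ 1)
    (hP : ∏ i, F i = 3 / 8) (hS : ∀ i, 0 ≤ S i) :
    (n.factorial : ℝ) * (634 / 1000) * ∑ i, S i ≤
      ∑ k : Fin n, wt (late n) k.val *
        ∑ σ : Equiv.Perm (Fin n), (∏ j ∈ univ.filter (· < k), F (σ j)) * S (σ k) := by
  have hn0 : (0 : ℝ) < n := by exact_mod_cast hn
  set lam : ℝ := -Real.log (3 / 8) with hlam
  have hl0 : 0 < lam := log_pos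
  have hl1 : lam ≤ 0.9815 := log_bound
  set e : Fin n → ℝ := fun k => Real.exp (-lam * k.val / ((n : ℝ) - 1)) with he
  have he1 : ∀ k, e k ≤ 1 := by
    intro k
    rw [he]
    refine Real.exp_le_one_iff.2 ?_
    have h1 : (0 : ℝ) ≤ (n : ℝ) - 1 := by
      have : (1 : ℝ) ≤ n := by exact_mod_cast hn
      linarith
    exact div_nonpos_of_nonpos_of_nonneg (by
      have : (0 : ℝ) ≤ k.val := by positivity
      nlinarith) h1
  have he0 : ∀ k, 0 ≤ e k := fun k => (Real.exp_pos _).le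
  -- the inner sums
  have h1 : ∀ k : Fin n, (n.factorial / n : ℝ) * e k * ∑ i, S i ≤
      ∑ σ : Equiv.Perm (Fin n), (∏ j ∈ univ.filter (· < k), F (σ j)) * S (σ k) := by
    intro k
    have h2 : ∑ σ : Equiv.Perm (Fin n), (∏ j ∈ univ.filter (· < k), F (σ j)) * S (σ k) =
        ∑ i, S i * ∑ σ : Equiv.Perm (Fin n),
          if σ k = i then ∏ j ∈ univ.filter (· < k), F (σ j) else 0 := by
      simp_rw [mul_sum]
      rw [sum_comm]
      refine sum_congr rfl fun σ _ => ?_
      rw [sum_eq_single (σ k)]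
      · simp; ring
      · intro i _ hi
        rw [if_neg (Ne.symm hi), mul_zero]
      · simp
    rw [h2, mul_sum]
    refine sum_le_sum fun i _ => ?_
    have h3 := reach F hF hF1 k i
    rw [hP, ← hlam] at h3
    have := mul_le_mul_of_nonneg_left h3 (hS i)
    calc _ = S i * ((n.factorial / n : ℝ) * e k) := by ring
      _ ≤ _ := this
  have h4 : ∑ k : Fin n, wt (late n) k.val * ((n.factorial / n : ℝ) * e k * ∑ i, S i) ≤
      ∑ k : Fin n, wt (late n) k.val *
        ∑ σ : Equiv.Perm (Fin n), (∏ j ∈ univ.filter (· < k), F (σ j)) * S (σ k) :=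
    sum_le_sum fun k _ => mul_le_mul_of_nonneg_left (h1 k) (wt_nonneg _ _)
  refine le_trans ?_ h4
  have h5 : ∑ k : Fin n, wt (late n) k.val * ((n.factorial / n : ℝ) * e k * ∑ i, S i) =
      (n.factorial / n : ℝ) * (∑ i, S i) * ∑ k : Fin n, wt (late n) k.val * e k := by
    rw [mul_sum]
    exact sum_congr rfl fun k _ => by ring
  rw [h5]
  have h6 : (n : ℝ) * (634 / 1000) ≤ ∑ k : Fin n, wt (late n) k.val * e k := by
    have h7 : ∑ k : Fin n, e k - ∑ k : Fin n, (1 - wt (late n) k.val) ≤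
        ∑ k : Fin n, wt (late n) k.val * e k := by
      rw [← sum_sub_distrib]
      refine sum_le_sum fun k _ => ?_
      nlinarith [mul_nonneg (sub_nonneg.2 (wt_le_one (late n) k.val)) (sub_nonneg.2 (he1 k))]
    have h8 := avg_exp hn hl0
    have h9 := loss hn
    have h10 : Real.exp (-lam) = 3 / 8 := by
      rw [hlam, neg_neg, Real.exp_log (by norm_num)]
    rw [h10] at h8
    have h11 : (0.6366 : ℝ) + 0.0001 ≤ (1 - 3 / 8) / lam := by
      rw [le_div_iff₀ hl0]; norm_num at hl1 ⊢; linarith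
    have h12 : (n : ℝ) * (634 / 1000) ≤ n * ((1 - 3 / 8) / lam) - n / 380 := by
      have : (634 / 1000 : ℝ) ≤ (1 - 3 / 8) / lam - 1 / 380 := by norm_num at h11 ⊢; linarith
      calc (n : ℝ) * (634 / 1000) ≤ n * ((1 - 3 / 8) / lam - 1 / 380) :=
            mul_le_mul_of_nonneg_left this hn0.le
        _ = _ := by ring
    have h13 : ∑ k : Fin n, Real.exp (-lam * k.val / ((n : ℝ) - 1)) = ∑ k, e k := rfl
    linarith
  have h14 : 0 ≤ (n.factorial / n : ℝ) * ∑ i, S i :=
    mul_nonneg (by positivity) (sum_nonneg fun i _ => hS i)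
  calc (n.factorial : ℝ) * (634 / 1000) * ∑ i, S i =
        (n.factorial / n : ℝ) * (∑ i, S i) * (n * (634 / 1000)) := by field_simp
    _ ≤ _ := mul_le_mul_of_nonneg_left h6 h14

/-- the probability that the accepted value exceeds the answer -/
lemma alg2 (hn : 1 ≤ n) (F : Fin n → ℝ) (hF : ∀ i, 0 < F i) (hF1 : ∀ i, F i ≤ 1)
    (hP : ∏ i, F i = 3 / 8) :
    (n.factorial : ℝ) * 0.6224 ≤
      ∑ k : Fin n, wt (late n) k.val *
        ∑ σ : Equiv.Perm (Fin n), (∏ j ∈ univ.filter (· < k), F (σ j)) * (1 - F (σ k)) := by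
  have hn0 : (0 : ℝ) < n := by exact_mod_cast hn
  set lam : ℝ := -Real.log (3 / 8) with hlam
  have hl0 : 0 < lam := log_pos
  have hl1 : lam ≤ 0.9815 := log_bound
  set a : Fin n → ℝ := fun k =>
    ∑ σ : Equiv.Perm (Fin n), (∏ j ∈ univ.filter (· < k), F (σ j)) * (1 - F (σ k)) with ha
  have h1 : ∑ k, a k = n.factorial * (5 / 8) := by
    simp only [ha]
    rw [sum_comm]
    have h2 : ∀ σ : Equiv.Perm (Fin n),
        ∑ k : Fin n, (∏ j ∈ univ.filter (· < k), F (σ j)) * (1 - F (σ k)) = 5 / 8 := by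
      intro σ
      have h3 := prod_one_sub_ordered (univ : Finset (Fin n)) (fun i => 1 - F (σ i))
      simp only [sub_sub_cancel] at h3
      rw [Equiv.prod_comp σ F, hP] at h3
      have h4 : ∑ k : Fin n, (∏ j ∈ univ.filter (· < k), F (σ j)) * (1 - F (σ k)) =
          ∑ i : Fin n, (1 - F (σ i)) * ∏ j ∈ univ.filter (· < i), F (σ j) :=
        sum_congr rfl fun k _ => mul_comm _ _
      rw [h4]; linarith
    rw [sum_congr rfl fun σ _ => h2 σ, sum_const, card_univ, Fintype.card_perm, Fintype.card_fin,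
      nsmul_eq_mul]
  have h5 : ∀ k, a k ≤ (n.factorial / n : ℝ) * lam := by
    intro k
    have h6 : a k ≤ ∑ σ : Equiv.Perm (Fin n), (1 - F (σ k)) := by
      refine sum_le_sum fun σ _ => ?_
      have h7 : (∏ j ∈ univ.filter (· < k), F (σ j)) ≤ 1 :=
        prod_le_one (fun j _ => (hF _).le) fun j _ => hF1 _
      have h8 : 0 ≤ 1 - F (σ k) := by linarith [hF1 (σ k)]
      calc _ ≤ 1 * (1 - F (σ k)) := mul_le_mul_of_nonneg_right h7 h8
        _ = _ := one_mul _
    have h9 : ∑ σ : Equiv.Perm (Fin n), (1 - F (σ k)) = (n.factorial / n : ℝ) * ∑ i, (1 - F i) := by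
      have h10 : ∑ σ : Equiv.Perm (Fin n), (1 - F (σ k)) = ∑ i, (1 - F i) *
          ∑ σ : Equiv.Perm (Fin n), if σ k = i then (1 : ℝ) else 0 := by
        simp_rw [mul_sum]
        rw [sum_comm]
        refine sum_congr rfl fun σ _ => ?_
        rw [sum_eq_single (σ k)]
        · simp
        · intro i _ hi
          rw [if_neg (Ne.symm hi), mul_zero]
        · simp
      rw [h10, sum_congr rfl fun i _ => by rw [cnt k i], ← sum_mul]; ring
    have h11 : ∑ i, (1 - F i) ≤ lam := by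
      have h12 : lam = ∑ i, -Real.log (F i) := by
        rw [hlam, ← hP, Real.log_prod fun i _ => (hF i).ne', sum_neg_distrib]
      rw [h12]
      refine sum_le_sum fun i _ => ?_
      have := Real.log_le_sub_one_of_pos (hF i)
      linarith
    calc a k ≤ _ := h6
      _ = _ := h9
      _ ≤ _ := mul_le_mul_of_nonneg_left h11 (by positivity)
  have ha0 : ∀ k, 0 ≤ a k := fun k => sum_nonneg fun σ _ =>
    mul_nonneg (prod_nonneg fun j _ => (hF _).le) (by linarith [hF1 (σ k)])
  have h13 : ∑ k, a k - (n.factorial / n : ℝ) * lam * ∑ k : Fin n, (1 - wt (late n) k.val) ≤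
      ∑ k : Fin n, wt (late n) k.val * a k := by
    rw [mul_sum, ← sum_sub_distrib]
    refine sum_le_sum fun k _ => ?_
    have := mul_le_mul_of_nonneg_left (h5 k) (sub_nonneg.2 (wt_le_one (late n) k.val))
    linarith
  refine le_trans ?_ h13
  rw [h1]
  have h14 := mul_le_mul_of_nonneg_left (loss hn)
    (show 0 ≤ (n.factorial / n : ℝ) * lam by positivity)
  have h15 : (n.factorial / n : ℝ) * lam * (n / 380) = n.factorial * (lam / 380) := by
    field_simp
  rw [h15] at h14
  have h16 : (n.factorial : ℝ) * 0.6224 ≤ n.factorial * (5 / 8) - n.factorial * (lam / 380) := by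
    have : (0.6224 : ℝ) ≤ 5 / 8 - lam / 380 := by norm_num at hl1 ⊢; linarith
    calc (n.factorial : ℝ) * 0.6224 ≤ n.factorial * (5 / 8 - lam / 380) :=
          mul_le_mul_of_nonneg_left this (by positivity)
      _ = _ := by ring
  linarith

/-- the proportion of late positions -/
lemma alg3 (hn : 1 ≤ n) : (1 / 20 : ℝ) ≤ ((n : ℝ) - late n) / n := by
  have hn0 : (0 : ℝ) < n := by exact_mod_cast hn
  rw [le_div_iff₀ hn0]
  have h1 : n ≤ 20 * (n - late n) := by unfold late; omega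
  have h2 : late n ≤ n := Nat.sub_le _ _
  have h3 : (n : ℝ) ≤ 20 * ((n : ℝ) - late n) := by
    have : ((n : ℕ) : ℝ) ≤ ((20 * (n - late n) : ℕ) : ℝ) := by exact_mod_cast h1
    rw [Nat.cast_mul, Nat.cast_sub h2] at this
    exact_mod_cast this
  linarith

/-- the final inequality -/
lemma final {v a Ssum A : ℝ} (hv : 0 ≤ v) (ha1 : a ≤ 3 / 8)
    (hA : 634 / 1000 * Ssum + v * 0.6224 + 9 / 10 * v * (1 / 20) * a ≤ A) :
    634 / 1000 * (v - v / 10 * (3 / 8 - a) + Ssum) ≤ A := by
  refine le_trans ?_ hA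
  nlinarith [mul_nonneg hv (sub_nonneg.2 ha1)]

end Q293.PS
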