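import Pool.Agent.Q293.PS.Sym

open Finset

namespace Q293.PS

/-- the weight of position `k` -/
noncomputable def wt (m k : ℕ) : ℝ := if k ≤ m then 1 else (m : ℝ) / k

lemma wt_nonneg (m k : ℕ) : 0 ≤ wt m k := by
  unfold wt; split_ifs <;> positivity

lemma wt_le_one (m k : ℕ) : wt m k ≤ 1 := by
  unfold wt
  split_ifs with h
  · exact le_rfl
  · push Not at h
    have : (0 : ℝ) < k := by exact_mod_cast (by omega : 0 < k)
    rw [div_le_one this]
    exact_mod_cast h.le

/-- at most one position carries the maximum -/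
lemma mx_unique {n K : ℕ} {y : Fin n → ℝ} (hy : Function.Injective y) {p p' : Fin n}
    (hp : p.val < K) (hp' : p'.val < K) (h : Mx K y p) (h' : Mx K y p') : p = p' :=
  hy (le_antisymm (h' p hp) (h p' hp'))

open Classical in
lemma sum_mx_le {n K : ℕ} {y : Fin n → ℝ} (hy : Function.Injective y) (S : Finset (Fin n))
    (hS : ∀ p ∈ S, p.val < K) {c : ℝ} :
    ∑ p ∈ S, (if Mx K y p then c else 0) ≤ if ∃ p ∈ S, Mx K y p then c else 0 := by
  by_cases h : ∃ p ∈ S, Mx K y p
  · rw [if_pos h]
    obtain ⟨p, hp, hp'⟩ := h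
    rw [sum_eq_single_of_mem p hp fun b hb hbp => if_neg fun hb' =>
      hbp (mx_unique hy (hS b hb) (hS p hp) hb' hp'), if_pos hp']
  · rw [if_neg h]
    refine (sum_eq_zero fun p hp => if_neg fun hp' => h ⟨p, hp, hp'⟩).le

open Classical in
lemma main_term {n m : ℕ} (x : Fin n → ℝ) (hx : Function.Injective x) (hx0 : ∀ i, 0 ≤ x i)
    (v : ℝ) (k : Fin n) (hm : m ≤ n) :
    wt m k.val * ∑ σ : Equiv.Perm (Fin n),
      (if Low v (fun i => x (σ i)) k.val ∧ v < x (σ k) then x (σ k) else 0) ≤
    ∑ σ : Equiv.Perm (Fin n),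
      (if Low v (fun i => x (σ i)) k.val ∧ Early m (fun i => x (σ i)) k ∧ v < x (σ k)
        then x (σ k) else 0) := by
  by_cases hk : k.val ≤ m
  · rw [wt, if_pos hk, one_mul]
    refine sum_le_sum fun σ _ => ?_
    rw [if_congr (show (Low v (fun i => x (σ i)) k.val ∧ v < x (σ k)) ↔
      (Low v (fun i => x (σ i)) k.val ∧ Early m (fun i => x (σ i)) k ∧ v < x (σ k)) from
      ⟨fun h => ⟨h.1, Or.inl hk, h.2⟩, fun h => ⟨h.1, h.2.2⟩⟩) rfl rfl]
  · push Not at hk
    have hk0 : (0 : ℝ) < k.val := by exact_mod_cast (by omega : 0 < k.val)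
    set Φ : (Fin n → ℝ) → ℝ := fun y => if Low v y k.val ∧ v < y k then y k else 0 with hΦ
    have hΦ0 : ∀ y : Fin n → ℝ, (∀ i, 0 ≤ y i) → 0 ≤ Φ y := fun y hy => by
      simp only [hΦ]; split_ifs
      · exact hy k
      · exact le_rfl
    have hinv : ∀ (y : Fin n → ℝ) (p p' : Fin n), p.val < k.val → p'.val < k.val →
        Φ (fun i => y (Equiv.swap p p' i)) = Φ y := by
      intro y p p' hp hp'
      have h1 : Equiv.swap p p' k = k :=
        Equiv.swap_apply_of_ne_of_ne (by rintro rfl; exact lt_irrefl _ hp)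
          (by rintro rfl; exact lt_irrefl _ hp')
      have h2 : Low v (fun i => y (Equiv.swap p p' i)) k.val ↔ Low v y k.val := by
        have h3 : ∀ z : Fin n → ℝ, Low v z k.val →
            Low v (fun i => z (Equiv.swap p p' i)) k.val := by
          intro z h j hj
          apply h
          by_cases h1 : j = p
          · subst h1; simpa using hp'
          · by_cases h2 : j = p'
            · subst h2; simpa using hp
            · rwa [Equiv.swap_apply_of_ne_of_ne h1 h2]
        constructor
        · intro h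
          have := h3 _ h
          simpa using this
        · exact h3 y
      simp only [hΦ, h1, h2]
    have h1 : (k.val : ℝ) * ∑ p ∈ univ.filter (fun p : Fin n => p.val < m),
        ∑ σ : Equiv.Perm (Fin n),
          (if Mx k.val (fun i => x (σ i)) p then Φ (fun i => x (σ i)) else 0) =
        (m : ℝ) * ∑ σ : Equiv.Perm (Fin n), Φ (fun i => x (σ i)) := by
      rw [mul_sum, sum_congr rfl fun p hp => sym x hx k.val k.isLt.le Φ hinv p (by
        have : p.val < m := by simpa using hp
        omega), sum_const, nsmul_eq_mul]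
      congr 2
      rw [show (univ.filter fun p' : Fin n => p'.val < m) = (univ : Finset (Fin m)).map
        ⟨Fin.castLE hm, Fin.castLE_injective hm⟩ from ?_]
      · simp
      · ext a
        simp only [mem_filter, mem_univ, true_and, mem_map, Function.Embedding.coeFn_mk]
        constructor
        · intro h
          exact ⟨⟨a.val, h⟩, by ext; simp⟩
        · rintro ⟨b, rfl⟩
          simp
    rw [wt, if_neg (by omega), div_mul_eq_mul_div, div_le_iff₀ hk0]
    rw [← h1, mul_comm]
    refine mul_le_mul_of_nonneg_right ?_ hk0.le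
    rw [sum_comm]
    refine sum_le_sum fun σ _ => ?_
    have hinj : Function.Injective fun i => x (σ i) := hx.comp σ.injective
    refine (sum_mx_le hinj (univ.filter fun p : Fin n => p.val < m) (K := k.val)
      (fun p hp => by
        have : p.val < m := by simpa using hp
        omega)).trans ?_
    by_cases h2 : ∃ p ∈ univ.filter (fun p : Fin n => p.val < m), Mx k.val (fun i => x (σ i)) p
    · rw [if_pos h2]
      obtain ⟨p, hp, hp'⟩ := h2
      simp only [hΦ]
      by_cases h3 : Low v (fun i => x (σ i)) k.val ∧ v < x (σ k)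
      · rw [if_pos h3, if_pos ⟨h3.1, Or.inr ⟨p, by simpa using hp, hp'⟩, h3.2⟩]
      · rw [if_neg h3]
        split_ifs
        · exact hx0 _
        · exact le_rfl
    · rw [if_neg h2]
      split_ifs
      · exact hx0 _
      · exact le_rfl

open Classical in
lemma late_term {n m : ℕ} (x : Fin n → ℝ) (hx : Function.Injective x)
    (v : ℝ) (hv : 0 ≤ v) (hm : m ≤ n) (hn : 1 ≤ n) :
    (9 / 10 * v) * (((n : ℝ) - m) / n * n.factorial) *
      (if (∀ i, x i ≤ v) ∧ ∃ i, 9 / 10 * v ≤ x i then 1 else 0) ≤
    ∑ σ : Equiv.Perm (Fin n), (if (∀ i, x (σ i) ≤ v) ∧ ∃ p : Fin n, m ≤ p.val ∧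
      9 / 10 * v ≤ x (σ p) ∧ Mx n (fun i => x (σ i)) p then 9 / 10 * v else 0) := by
  have hn0 : (0 : ℝ) < n := by exact_mod_cast (by omega : 0 < n)
  by_cases h : (∀ i, x i ≤ v) ∧ ∃ i, 9 / 10 * v ≤ x i
  · rw [if_pos h, mul_one]
    obtain ⟨h1, i₀, hi₀⟩ := h
    have h2 : (n : ℝ) * ∑ p ∈ univ.filter (fun p : Fin n => m ≤ p.val),
        ∑ σ : Equiv.Perm (Fin n),
          (if Mx n (fun i => x (σ i)) p then
            (fun _ : Fin n → ℝ => 9 / 10 * v) (fun i => x (σ i)) else 0) =
        ((n : ℝ) - m) * ∑ σ : Equiv.Perm (Fin n), (fun _ : Fin n → ℝ => 9 / 10 * v)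
        (fun i => x (σ i)) := by
      rw [mul_sum, sum_congr rfl fun p hp => sym x hx n le_rfl
        (fun _ : Fin n → ℝ => 9 / 10 * v) (fun _ _ _ _ _ => rfl) p p.isLt,
        sum_const, nsmul_eq_mul]
      congr 1
      have h3 : (univ.filter fun p : Fin n => m ≤ p.val) =
          univ \ (univ.filter fun p : Fin n => p.val < m) := by
        ext a; simp
      have h4 : (univ.filter fun p' : Fin n => p'.val < m) = (univ : Finset (Fin m)).map
          ⟨Fin.castLE hm, Fin.castLE_injective hm⟩ := by
        ext a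
        simp only [mem_filter, mem_univ, true_and, mem_map, Function.Embedding.coeFn_mk]
        constructor
        · intro h
          exact ⟨⟨a.val, h⟩, by ext; simp⟩
        · rintro ⟨b, rfl⟩
          simp
      rw [h3, card_sdiff_of_subset (subset_univ _), h4]
      simp only [card_univ, Fintype.card_fin, card_map]
      rw [Nat.cast_sub hm]
    have h5 : (9 / 10 * v) * (((n : ℝ) - m) / n * n.factorial) =
        ∑ p ∈ univ.filter (fun p : Fin n => m ≤ p.val), ∑ σ : Equiv.Perm (Fin n),
          (if Mx n (fun i => x (σ i)) p then 9 / 10 * v else 0) := by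
      have h6 : ∑ σ : Equiv.Perm (Fin n), (fun _ : Fin n → ℝ => 9 / 10 * v)
        (fun i => x (σ i)) = n.factorial * (9 / 10 * v) := by
        simp [Fintype.card_perm]
      rw [h6] at h2
      have h7 : ((n : ℝ) - m) * (n.factorial * (9 / 10 * v)) / n =
        ∑ p ∈ univ.filter (fun p : Fin n => m ≤ p.val), ∑ σ : Equiv.Perm (Fin n),
          (if Mx n (fun i => x (σ i)) p then 9 / 10 * v else 0) := by
        rw [← h2]; field_simp
      rw [← h7]; ring
    rw [h5, sum_comm]
    refine sum_le_sum fun σ _ => ?_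
    have hinj : Function.Injective fun i => x (σ i) := hx.comp σ.injective
    refine (sum_mx_le hinj (univ.filter fun p : Fin n => m ≤ p.val) (K := n)
      (fun p hp => p.isLt)).trans ?_
    by_cases h2 : ∃ p ∈ univ.filter (fun p : Fin n => m ≤ p.val), Mx n (fun i => x (σ i)) p
    · rw [if_pos h2, if_pos]
      obtain ⟨p, hp, hp'⟩ := h2
      refine ⟨fun i => h1 _, p, by simpa using hp, ?_, hp'⟩
      have := hp' (σ.symm i₀) (σ.symm i₀).isLt
      simp only [Equiv.apply_symm_apply] at this
      linarith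
    · rw [if_neg h2]
      split_ifs
      · positivity
      · exact le_rfl
  · rw [if_neg h, mul_zero]
    refine sum_nonneg fun σ _ => ?_
    split_ifs
    · positivity
    · exact le_rfl

open Classical in
/-- The pathwise lower bound, averaged over the orders. -/
lemma path {n m : ℕ} (x : Fin n → ℝ) (hx : Function.Injective x) (hx0 : ∀ i, 0 ≤ x i)
    (v : ℝ) (hv : 0 ≤ v) (hm : m ≤ n) (hn : 1 ≤ n) :
    (∑ k : Fin n, wt m k.val * ∑ σ : Equiv.Perm (Fin n),
      (if Low v (fun i => x (σ i)) k.val ∧ v < x (σ k) then x (σ k) else 0)) +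
    (9 / 10 * v) * (((n : ℝ) - m) / n * n.factorial) *
      (if (∀ i, x i ≤ v) ∧ ∃ i, 9 / 10 * v ≤ x i then 1 else 0) ≤
    ∑ σ : Equiv.Perm (Fin n), pay m v (fun i => x (σ i)) := by
  refine le_trans ?_ (sum_le_sum fun σ _ => le_pay (m := m) (v := v) (y := fun i => x (σ i))
    (fun i => hx0 _) (hx.comp σ.injective))
  rw [sum_add_distrib]
  refine add_le_add ?_ ?_
  · rw [sum_comm]
    exact sum_le_sum fun k _ => main_term x hx hx0 v k hm
  · exact late_term x hx v hv hm hn

end Q293.PS
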