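import Pool.Agent.Q293.PS.Defs

open Finset

namespace Q293.PS

/-- the position from which records are accepted -/
def late (n : ℕ) : ℕ := n - (n / 20 + 1)

/-- the strategy: query the quantile `5 / 8`; accept every value above the answer, and, at the
last `n / 20 + 1` positions, every record which is at least `9 / 10` of the answer. -/
noncomputable def strat : Strategy where
  q _ := 5 / 8
  q_mem _ := by constructor <;> norm_num
  accept n v k z := v < z (Fin.last k) ∨
    (late n ≤ k ∧ 9 / 10 * v ≤ z (Fin.last k) ∧ ∀ j < Fin.last k, z j < z (Fin.last k))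

/-- the acceptance rule at position `k` -/
def Acc {n : ℕ} (m : ℕ) (v : ℝ) (y : Fin n → ℝ) (k : Fin n) : Prop :=
  v < y k ∨ (m ≤ k.val ∧ 9 / 10 * v ≤ y k ∧ ∀ j < k, y j < y k)

lemma acc_iff {n : ℕ} (v : ℝ) (y : Fin n → ℝ) (k : Fin n) :
    strat.accept n v k (seen y k) ↔ Acc (late n) v y k := by
  have h1 : seen y k (Fin.last k.val) = y k := by
    simp only [seen]; congr 1
  change (v < seen y k (Fin.last k.val) ∨ (late n ≤ k.val ∧
    9 / 10 * v ≤ seen y k (Fin.last k.val) ∧
    ∀ j < Fin.last k.val, seen y k j < seen y k (Fin.last k.val))) ↔ _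
  rw [h1]
  unfold Acc
  constructor
  · rintro (h | ⟨h, h', h''⟩)
    · exact Or.inl h
    · refine Or.inr ⟨h, h', fun j hj => ?_⟩
      have := h'' ⟨j.val, by have := Fin.lt_def.1 hj; omega⟩ (by
        rw [Fin.lt_def]; simpa using Fin.lt_def.1 hj)
      simpa [seen] using this
  · rintro (h | ⟨h, h', h''⟩)
    · exact Or.inl h
    · refine Or.inr ⟨h, h', fun j hj => ?_⟩
      exact h'' _ (by rw [Fin.lt_def] at hj ⊢; simpa using hj)

open Classical in
/-- the payoff of the rule -/
noncomputable def pay {n : ℕ} (m : ℕ) (v : ℝ) (y : Fin n → ℝ) : ℝ :=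
  ∑ k : Fin n, if Acc m v y k ∧ ∀ j < k, ¬ Acc m v y j then y k else 0

lemma payoff_eq {n : ℕ} (v : ℝ) (y : Fin n → ℝ) : payoff strat v y = pay (late n) v y := by
  unfold payoff pay
  refine sum_congr rfl fun k _ => ?_
  have h := and_congr (acc_iff v y k)
    (forall₂_congr fun j (_ : j < k) => not_congr (acc_iff v y j))
  by_cases h1 : Acc (late n) v y k ∧ ∀ j < k, ¬ Acc (late n) v y j
  · rw [if_pos h1, if_pos (h.2 h1)]
  · rw [if_neg h1, if_neg (fun h2 => h1 (h.1 h2))]

/-- the first `k` values are at most `v` -/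
def Low {n : ℕ} (v : ℝ) (y : Fin n → ℝ) (k : ℕ) : Prop := ∀ j : Fin n, j.val < k → y j ≤ v

/-- the maximum of the first `K` values is attained at position `p` -/
def Mx {n : ℕ} (K : ℕ) (y : Fin n → ℝ) (p : Fin n) : Prop := ∀ j : Fin n, j.val < K → y j ≤ y p

/-- the maximum of the first `k` values is attained before position `m` -/
def Early {n : ℕ} (m : ℕ) (y : Fin n → ℝ) (k : Fin n) : Prop :=
  k.val ≤ m ∨ ∃ p : Fin n, p.val < m ∧ Mx k.val y p

lemma not_acc {n m : ℕ} {v : ℝ} {y : Fin n → ℝ} {k : Fin n} (h1 : Low v y k.val)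
    (h2 : Early m y k) (j : Fin n) (hj : j < k) : ¬ Acc m v y j := by
  rintro (h | ⟨h, -, h'⟩)
  · exact absurd (h1 j (Fin.lt_def.1 hj)) (not_le.2 h)
  · rcases h2 with h2 | ⟨p, hp, hp'⟩
    · have := Fin.lt_def.1 hj; omega
    · have h3 := h' p (Fin.lt_def.2 (by omega))
      have h4 := hp' j (Fin.lt_def.1 hj)
      linarith

open Classical in
/-- The lower bound for the payoff. -/
lemma le_pay {n m : ℕ} {v : ℝ} {y : Fin n → ℝ} (hy : ∀ i, 0 ≤ y i)
    (hinj : Function.Injective y) :
    (∑ k : Fin n, if Low v y k.val ∧ Early m y k ∧ v < y k then y k else 0) +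
      (if (∀ i, y i ≤ v) ∧ ∃ p : Fin n, m ≤ p.val ∧ 9 / 10 * v ≤ y p ∧ Mx n y p
        then 9 / 10 * v else 0) ≤ pay m v y := by
  by_cases h : (∀ i, y i ≤ v) ∧ ∃ p : Fin n, m ≤ p.val ∧ 9 / 10 * v ≤ y p ∧ Mx n y p
  · rw [if_pos h]
    obtain ⟨h1, p, hp1, hp2, hp3⟩ := h
    have h2 : (∑ k : Fin n, if Low v y k.val ∧ Early m y k ∧ v < y k then y k else 0) = 0 := by
      refine sum_eq_zero fun k _ => if_neg ?_
      rintro ⟨-, -, h3⟩
      exact absurd (h1 k) (not_le.2 h3)
    rw [h2, zero_add]
    have hacc : Acc m v y p := Or.inr ⟨hp1, hp2, fun j hj =>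
      lt_of_le_of_ne (hp3 j j.isLt) fun e => absurd (hinj e) (ne_of_lt hj)⟩
    -- the first accepted position
    obtain ⟨k, hk1, hk2⟩ : ∃ k, Acc m v y k ∧ ∀ j < k, ¬ Acc m v y j := by
      have hne : (univ.filter fun k => Acc m v y k).Nonempty := ⟨p, by simp [hacc]⟩
      refine ⟨(univ.filter fun k => Acc m v y k).min' hne, ?_, fun j hj h => ?_⟩
      · exact (mem_filter.1 (min'_mem _ hne)).2
      · exact absurd (min'_le _ j (by simp [h])) (not_le.2 hj)
    have hk3 : 9 / 10 * v ≤ y k := by
      rcases hk1 with h | ⟨-, h, -⟩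
      · exact absurd (h1 k) (not_le.2 h)
      · exact h
    refine hk3.trans ?_
    unfold pay
    have h4 : ∀ j : Fin n, j ∈ univ →
        0 ≤ (if Acc m v y j ∧ ∀ i < j, ¬ Acc m v y i then y j else 0) := fun j _ => by
      split_ifs
      · exact hy j
      · exact le_rfl
    refine le_trans ?_ (single_le_sum h4 (mem_univ k))
    rw [if_pos ⟨hk1, hk2⟩]
  · rw [if_neg h, add_zero]
    refine sum_le_sum fun k _ => ?_
    by_cases h1 : Low v y k.val ∧ Early m y k ∧ v < y k
    · rw [if_pos h1, if_pos]
      exact ⟨Or.inl h1.2.2, not_acc h1.1 h1.2.1⟩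
    · rw [if_neg h1]
      split_ifs
      · exact hy k
      · exact le_rfl

open Classical in
/-- Symmetrization: in the average over the orders, the maximum of the first `K` values is
attained at each of the first `K` positions with the same probability. -/
lemma sym {n : ℕ} (x : Fin n → ℝ) (hx : Function.Injective x) (K : ℕ) (hK : K ≤ n)
    (Φ : (Fin n → ℝ) → ℝ)
    (hΦ : ∀ (y : Fin n → ℝ) (p p' : Fin n), p.val < K → p'.val < K →
      Φ (fun i => y (Equiv.swap p p' i)) = Φ y) (p : Fin n) (hp : p.val < K) :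
    (K : ℝ) * ∑ σ : Equiv.Perm (Fin n),
      (if Mx K (fun i => x (σ i)) p then Φ (fun i => x (σ i)) else 0) =
      ∑ σ : Equiv.Perm (Fin n), Φ (fun i => x (σ i)) := by
  set T : Fin n → ℝ := fun p => ∑ σ : Equiv.Perm (Fin n),
      (if Mx K (fun i => x (σ i)) p then Φ (fun i => x (σ i)) else 0) with hT
  have hTeq : ∀ p' : Fin n, p'.val < K → T p' = T p := by
    intro p' hp'
    simp only [hT]
    rw [← Equiv.sum_comp (Equiv.mulRight (Equiv.swap p p'))]
    refine sum_congr rfl fun σ _ => ?_
    have e1 : (fun i => x ((Equiv.mulRight (Equiv.swap p p') σ) i)) =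
        fun i => (fun j => x (σ j)) (Equiv.swap p p' i) := by
      funext i
      simp
    rw [e1]
    have e2 : Mx K (fun i => (fun j => x (σ j)) (Equiv.swap p p' i)) p' ↔
        Mx K (fun i => x (σ i)) p := by
      constructor
      · intro h j hj
        have := h (Equiv.swap p p' j) (by
          by_cases h1 : j = p
          · subst h1; simpa using hp'
          · by_cases h2 : j = p'
            · subst h2; simpa using hp
            · rwa [Equiv.swap_apply_of_ne_of_ne h1 h2])
        simpa using this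
      · intro h j hj
        have := h (Equiv.swap p p' j) (by
          by_cases h1 : j = p
          · subst h1; simpa using hp'
          · by_cases h2 : j = p'
            · subst h2; simpa using hp
            · rwa [Equiv.swap_apply_of_ne_of_ne h1 h2])
        simpa using this
    have e3 := hΦ (fun i => x (σ i)) p p' hp hp'
    rw [if_congr e2 e3 rfl]
  have hsum : ∑ p' ∈ univ.filter (fun p' : Fin n => p'.val < K), T p' =
      ∑ σ : Equiv.Perm (Fin n), Φ (fun i => x (σ i)) := by
    simp only [hT]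
    rw [sum_comm]
    refine sum_congr rfl fun σ _ => ?_
    rw [← sum_filter]
    have hne : (univ.filter fun p' : Fin n => p'.val < K).Nonempty := ⟨p, by simp [hp]⟩
    obtain ⟨a, ha1, ha2⟩ := exists_max_image (univ.filter fun p' : Fin n => p'.val < K)
      (fun i => x (σ i)) hne
    have hs : (univ.filter fun p' : Fin n => p'.val < K).filter
        (fun p' => Mx K (fun i => x (σ i)) p') = {a} := by
      ext b
      simp only [mem_filter, mem_univ, true_and, mem_singleton]
      constructor
      · rintro ⟨hb1, hb2⟩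
        have h1 := hb2 a (by simpa using ha1)
        have h2 := ha2 b (by simp [hb1])
        exact σ.injective (hx (le_antisymm h2 h1))
      · rintro rfl
        exact ⟨by simpa using ha1, fun j hj => ha2 j (by simp [hj])⟩
    rw [hs, sum_singleton]
  rw [← hsum, sum_congr rfl fun p' hp' => hTeq p' (by simpa using hp'), sum_const, nsmul_eq_mul]
  congr 2
  rw [show (univ.filter fun p' : Fin n => p'.val < K) = (univ : Finset (Fin K)).map
    ⟨Fin.castLE hK, Fin.castLE_injective hK⟩ from ?_]
  · simp
  · ext a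
    simp only [mem_filter, mem_univ, true_and, mem_map, Function.Embedding.coeFn_mk]
    constructor
    · intro h
      exact ⟨⟨a.val, h⟩, by ext; simp⟩
    · rintro ⟨b, rfl⟩
      simp

end Q293.PS
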